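import Pool.Agent.Helper45.PQ.StA

/-!
# Project PQ, module PPR
-/

set_option autoImplicit false

open Module Classical
open scoped LinearAlgebra.Projectivization

namespace Pool.Agent.Helper2.PQ

open Pool.Agent.Helper45.PQ

universe u v

private lemma exists_two {F : Type u} [Field F] {V : Type v} [AddCommGroup V] [Module F V]
    [FiniteDimensional F V] (C : Submodule F V) (hC : 2 < finrank F C) (g h : V →ₗ[F] F) :
    ∃ c ∈ C, c ≠ 0 ∧ g c = 0 ∧ h c = 0 := by
  have h1 : LinearMap.ker ((g.prod h).comp C.subtype) ≠ ⊥ := by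
    apply LinearMap.ker_ne_bot_of_finrank_lt
    rw [Module.finrank_prod, Module.finrank_self]
    omega
  obtain ⟨x, hx, hx0⟩ := Submodule.exists_mem_ne_zero_of_ne_bot h1
  rw [LinearMap.mem_ker] at hx
  have hx' : (g x, h x) = ((0 : F), (0 : F)) := hx
  rw [Prod.mk.injEq] at hx'
  exact ⟨x, x.2, fun h0 => hx0 (Subtype.ext h0), hx'.1, hx'.2⟩

private lemma polar_self_two {F : Type u} [Field F] {V : Type v} [AddCommGroup V] [Module F V]
    (Q : QuadraticForm F V) (x : V) : QuadraticMap.polar Q x x = 2 * Q x := by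
  rw [QuadraticMap.polar_self]
  simp

private lemma exists_sum {F : Type u} [Field F] [Finite F] (h2 : (2 : F) ≠ 0) (a b d : F)
    (ha : a ≠ 0) (hb : b ≠ 0) : ∃ x y : F, x * x * a + (y * y * b + d) = 0 := by
  haveI := Fintype.ofFinite F
  have hc : ringChar F ≠ 2 := by
    intro h
    apply h2
    have := ringChar.Nat.cast_ringChar (R := F)
    rw [h] at this
    exact_mod_cast this
  have hodd := FiniteField.odd_card_of_char_ne_two hc
  obtain ⟨x, y, hxy⟩ := FiniteField.exists_root_sum_quadratic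
    (f := Polynomial.C a * Polynomial.X ^ 2) (g := Polynomial.C b * Polynomial.X ^ 2 + Polynomial.C d)
    (by rw [Polynomial.degree_C_mul_X_pow 2 ha]; rfl)
    (by
      rw [Polynomial.degree_add_eq_left_of_degree_lt]
      · rw [Polynomial.degree_C_mul_X_pow 2 hb]; rfl
      · rw [Polynomial.degree_C_mul_X_pow 2 hb]
        exact lt_of_le_of_lt Polynomial.degree_C_le (by norm_num)) hodd
  refine ⟨x, y, ?_⟩
  simp only [Polynomial.eval_mul, Polynomial.eval_C, Polynomial.eval_pow, Polynomial.eval_X,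
    Polynomial.eval_add] at hxy
  rw [← hxy]
  ring

private lemma aniso {F : Type u} [Field F] [Finite F] (h2 : (2 : F) ≠ 0) {V : Type v} [AddCommGroup V]
    [Module F V] [FiniteDimensional F V] (Q : QuadraticForm F V) (C : Submodule F V)
    (hC : 2 < finrank F C) : ∃ c ∈ C, c ≠ 0 ∧ Q c = 0 := by
  by_contra hcon
  have hno : ∀ c ∈ C, c ≠ 0 → Q c ≠ 0 := fun c hc h0 hQ => hcon ⟨c, hc, h0, hQ⟩
  obtain ⟨a, haC, ha0, -, -⟩ := exists_two C hC 0 0
  obtain ⟨b, hbC, hb0, hab, -⟩ := exists_two C hC (QuadraticMap.polarBilin Q a) 0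
  obtain ⟨d, hdC, hd0, had, hbd⟩ := exists_two C hC (QuadraticMap.polarBilin Q a)
    (QuadraticMap.polarBilin Q b)
  rw [QuadraticMap.polarBilin_apply_apply] at hab had hbd
  obtain ⟨x, y, hxy⟩ := exists_sum h2 (Q a) (Q b) (Q d) (hno a haC ha0) (hno b hbC hb0)
  have hz : Q (x • a + (y • b + d)) = 0 := by
    rw [QuadraticMap.map_add Q, QuadraticMap.map_add Q, QuadraticMap.map_smul, QuadraticMap.map_smul,
      QuadraticMap.polar_smul_left, QuadraticMap.polar_smul_left, QuadraticMap.polar_add_right,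
      QuadraticMap.polar_smul_right, hab, had, hbd]
    simp only [smul_eq_mul, mul_zero, add_zero]
    exact hxy
  have hm : x • a + (y • b + d) ∈ C := C.add_mem (C.smul_mem _ haC) (C.add_mem (C.smul_mem _ hbC) hdC)
  have hne : x • a + (y • b + d) ≠ 0 := by
    intro h0
    have h3 : QuadraticMap.polar Q (x • a + (y • b + d)) d = 0 := by
      rw [h0, QuadraticMap.polar_zero_left]
    rw [QuadraticMap.polar_add_left, QuadraticMap.polar_add_left, QuadraticMap.polar_smul_left,
      QuadraticMap.polar_smul_left, had, hbd, polar_self_two, smul_zero, smul_zero, zero_add, zero_add] at h3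
    exact (mul_ne_zero h2 (hno d hdC hd0)) h3
  exact hno _ hm hne hz

/-- module PPR -/
theorem hPPR : StPPR.{u, v} := by
  intro F _ _ h2 V _ _ _ Q nd r hV
  refine ⟨hV, ?_⟩
  intro U hU0
  have hU := (Pool.Agent.Helper53.PB.isGenerator_iff _ _).1 hU0
  obtain ⟨L, hL⟩ : ∃ L : V →ₗ[F] Dual F U, ∀ y u, L y u = QuadraticMap.polar Q y u :=
    ⟨(Module.Dual.transpose (R := F) U.subtype).comp (QuadraticMap.polarBilin Q),
      fun y u => rfl⟩
  have hsurj : LinearMap.range L = ⊤ := by
    rw [LinearMap.range_eq_top]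
    intro g
    obtain ⟨y, hy⟩ := Pool.Agent.Helper53.PB.surj_dual Q nd (U := U) hU.1.1 g
    refine ⟨y, ?_⟩
    ext u
    rw [hL, hy]
  have h1 := LinearMap.finrank_range_add_finrank_ker L
  rw [hsurj, finrank_top, Subspace.dual_finrank_eq, hV] at h1
  have h3 : U ≤ LinearMap.ker L := by
    intro x hx
    rw [LinearMap.mem_ker]
    ext u
    rw [hL]
    exact hU.1.2 x hx u u.2
  have h4 := Submodule.finrank_mono h3
  by_contra hne
  have hlt : finrank F U < r := by omega
  obtain ⟨W, hW⟩ := Submodule.exists_isCompl U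
  have h5 : U ⊔ W ⊓ LinearMap.ker L = LinearMap.ker L := by
    rw [← sup_inf_assoc_of_le W h3, hW.sup_eq_top, top_inf_eq]
  have h6 := Submodule.finrank_sup_add_finrank_inf_eq U (W ⊓ LinearMap.ker L)
  rw [h5] at h6
  obtain ⟨c, hcC, hc0, hQc⟩ := aniso h2 Q (W ⊓ LinearMap.ker L) (by omega)
  have hcW := hcC.1
  have hcL : ∀ x ∈ U, QuadraticMap.polar Q x c = 0 := by
    intro x hx
    have h7 := hcC.2
    rw [SetLike.mem_coe, LinearMap.mem_ker] at h7
    have h8 := hL c ⟨x, hx⟩
    rw [h7] at h8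
    rw [QuadraticMap.polar_comm]
    exact h8.symm
  have h9 := hU.1.sup_span (v := c) hQc hcL
  have h10 := hU.2 _ h9 le_sup_left
  have h11 : c ∈ U := by
    rw [← h10]
    exact Submodule.mem_sup_right (Submodule.mem_span_singleton_self c)
  exact hc0 (Submodule.disjoint_def.1 hW.disjoint c h11 hcW)

end Pool.Agent.Helper2.PQ
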